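import Pool.Agent.Helper14_DK.Stmts

/-!
# LB: the Levi form in terms of `∂̄_k ∂_j`
-/

set_option autoImplicit false

namespace Pool.Agent.DK.H18

open MeasureTheory Complex Set Metric Filter
open scoped ContDiff Topology

variable {n : ℕ}

/-- real functions: the second derivative -/
theorem fderiv_fderiv_apply_real {f : E n → ℝ} {z : E n} (hf : ContDiffAt ℝ 2 f z) (u v : E n) :
    fderiv ℝ (fun y => fderiv ℝ f y u) z v = fderiv ℝ (fderiv ℝ f) z v u := by
  have h : DifferentiableAt ℝ (fderiv ℝ f) z :=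
    (hf.fderiv_right (m := 1) (by norm_num)).differentiableAt (by norm_num)
  have := fderiv_clm_apply (𝕜 := ℝ) h (differentiableAt_const u)
  rw [this]
  simp

theorem fderiv_symm_real {f : E n → ℝ} {z : E n} (hf : ContDiffAt ℝ 2 f z) (u v : E n) :
    fderiv ℝ (fderiv ℝ f) z v u = fderiv ℝ (fderiv ℝ f) z u v := by
  have h : IsSymmSndFDerivAt ℝ f z := hf.isSymmSndFDerivAt (by simp)
  exact h v u

theorem diff_fderiv_apply_real {f : E n → ℝ} {z : E n} (hf : ContDiffAt ℝ 2 f z) (u : E n) :
    DifferentiableAt ℝ (fun y => fderiv ℝ f y u) z := by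
  have h : DifferentiableAt ℝ (fderiv ℝ f) z :=
    (hf.fderiv_right (m := 1) (by norm_num)).differentiableAt (by norm_num)
  exact h.clm_apply (differentiableAt_const u)

theorem ev_diff {f : E n → ℝ} {z : E n} (hf : ContDiffAt ℝ 2 f z) :
    ∀ᶠ y in 𝓝 z, DifferentiableAt ℝ f y := by
  have h := hf.eventually (by simp)
  filter_upwards [h] with y hy
  exact hy.differentiableAt (by norm_num)

theorem fderiv_fderiv_cx {f : E n → ℝ} {z : E n} (hf : ContDiffAt ℝ 2 f z) (u v : E n) :
    fderiv ℝ (fderiv ℝ (cx f)) z u v = ((fderiv ℝ (fderiv ℝ f) z u v : ℝ) : ℂ) := by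
  rw [← fderiv_fderiv_apply (contDiffAt_cx hf), ← fderiv_fderiv_apply_real hf]
  have e : (fun y => fderiv ℝ (cx f) y v) =ᶠ[𝓝 z] cx (fun y => fderiv ℝ f y v) := by
    filter_upwards [ev_diff hf] with y hy
    rw [fderiv_cx hy]; rfl
  rw [e.fderiv_eq, fderiv_cx (diff_fderiv_apply_real hf v)]

theorem Lv_eq {f : E n → ℝ} (z w : E n) :
    Lv f z w = (fderiv ℝ (fderiv ℝ f) z w w + fderiv ℝ (fderiv ℝ f) z (I • w) (I • w)) / 4 := by
  unfold Lv
  rw [iteratedFDeriv_two_apply, iteratedFDeriv_two_apply]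
  simp

theorem sum_single (w : E n) : w = ∑ j, (Pi.single j (w j) : E n) := by
  rw [Finset.univ_sum_single]

theorem single_eq (k : Fin n) (c : ℂ) :
    (Pi.single k c : E n) = c.re • (Pi.single k 1 : E n) + c.im • (Pi.single k I : E n) := by
  ext j
  by_cases h : j = k
  · subst h
    simp only [Pi.add_apply, Pi.smul_apply, Pi.single_eq_same, real_smul, mul_one]
    exact (Complex.re_add_im c).symm
  · simp [Pi.single_eq_of_ne h]

theorem bilin_single (B : E n →L[ℝ] E n →L[ℝ] ℝ) (j k : Fin n) (c d : ℂ) :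
    B (Pi.single k c) (Pi.single j d) =
      c.re * d.re * B (Pi.single k 1) (Pi.single j 1) +
      c.re * d.im * B (Pi.single k 1) (Pi.single j I) +
      c.im * d.re * B (Pi.single k I) (Pi.single j 1) +
      c.im * d.im * B (Pi.single k I) (Pi.single j I) := by
  rw [single_eq k c, single_eq j d]
  simp only [map_add, map_smul, add_apply, smul_apply, smul_eq_mul]
  ring

theorem bilin_sum (B : E n →L[ℝ] E n →L[ℝ] ℝ) (w : E n) :
    B w w + B (I • w) (I • w) = ∑ j, ∑ k,
      (B (Pi.single k (w k)) (Pi.single j (w j)) +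
        B (Pi.single k (I * w k)) (Pi.single j (I * w j))) := by
  have h : ∀ v : E n, B v v = ∑ j, ∑ k, B (Pi.single k (v k)) (Pi.single j (v j)) := by
    intro v
    conv_lhs => rw [sum_single v]
    rw [map_sum]
    rw [Finset.sum_comm, map_sum]
    simp only [FunLike.coe_sum, Finset.sum_apply]
    rw [Finset.sum_comm]
  rw [h w, h (I • w), ← Finset.sum_add_distrib]
  refine Finset.sum_congr rfl fun j _ => ?_
  rw [← Finset.sum_add_distrib]
  rfl

/-- LB -/
theorem lb : LbStmt := by
  intro n f z hf w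
  set B := fderiv ℝ (fderiv ℝ f) z with hB
  have hsym : ∀ u v, B u v = B v u := fun u v => fderiv_symm_real hf v u
  have hT : ∀ j k, dbar k (dz j (cx f)) z = 
      (((B (Pi.single k 1) (Pi.single j 1) + B (Pi.single k I) (Pi.single j I)) / 4 : ℝ) : ℂ) +
      (((B (Pi.single k I) (Pi.single j 1) - B (Pi.single k 1) (Pi.single j I)) / 4 : ℝ) : ℂ)
        * I := by
    intro j k
    have e1 : dbar k (dz j (cx f)) z = (fderiv ℝ (dz j (cx f)) z (Pi.single k 1) +
      I * fderiv ℝ (dz j (cx f)) z (Pi.single k I)) / 2 := rfl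
    rw [e1, fderiv_dz (contDiffAt_cx hf), fderiv_dz (contDiffAt_cx hf)]
    simp only [fderiv_fderiv_cx hf]
    push_cast
    have : I * I = -1 := Complex.I_mul_I
    linear_combination (-(1/4) * (fderiv ℝ (fderiv ℝ f) z (Pi.single k I) (Pi.single j I) : ℂ)) * this
  rw [Lv_eq, ← hB, bilin_sum]
  have him : (∑ j, ∑ k, dbar k (dz j (cx f)) z * w j * (starRingEnd ℂ) (w k)).im = 0 := by
    have h1 : ∀ j k, (dbar k (dz j (cx f)) z * w j * (starRingEnd ℂ) (w k)).im =
        - (dbar j (dz k (cx f)) z * w k * (starRingEnd ℂ) (w j)).im := by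
      intro j k
      rw [hT, hT]
      rw [hsym (Pi.single j 1) (Pi.single k 1), hsym (Pi.single j I) (Pi.single k I),
        hsym (Pi.single j I) (Pi.single k 1), hsym (Pi.single j 1) (Pi.single k I)]
      simp
      ring
    have h2 : ∑ j, ∑ k, (dbar k (dz j (cx f)) z * w j * (starRingEnd ℂ) (w k)).im =
        - ∑ j, ∑ k, (dbar k (dz j (cx f)) z * w j * (starRingEnd ℂ) (w k)).im := by
      conv_lhs => rw [Finset.sum_comm]
      rw [← Finset.sum_neg_distrib]
      refine Finset.sum_congr rfl fun j _ => ?_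
      rw [← Finset.sum_neg_distrib]
      refine Finset.sum_congr rfl fun k _ => ?_
      exact h1 k j
    simp only [Complex.im_sum]
    linarith
  have hre : (∑ j, ∑ k, dbar k (dz j (cx f)) z * w j * (starRingEnd ℂ) (w k)).re =
      (∑ j, ∑ k, (B (Pi.single k (w k)) (Pi.single j (w j)) +
        B (Pi.single k (I * w k)) (Pi.single j (I * w j)))) / 4 := by
    simp only [Complex.re_sum]
    rw [Finset.sum_div]
    refine Finset.sum_congr rfl fun j _ => ?_
    rw [Finset.sum_div]
    refine Finset.sum_congr rfl fun k _ => ?_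
    rw [hT, bilin_single B j k (w k) (w j), bilin_single B j k (I * w k) (I * w j)]
    simp
    ring
  apply Complex.ext
  · rw [Complex.ofReal_re, hre]
  · rw [Complex.ofReal_im, him]

end Pool.Agent.DK.H18
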