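import Pool.Agent.Helper18_DK.LB

/-!
# LC: calculus of the Levi form
-/

set_option autoImplicit false

namespace Pool.Agent.DK.H18

open MeasureTheory Complex Set Metric Filter
open scoped ContDiff Topology

variable {n : ℕ}

/-! ### sums and scalar multiples -/

theorem snd_add {f g : E n → ℝ} {z : E n} (hf : ContDiffAt ℝ 2 f z) (hg : ContDiffAt ℝ 2 g z)
    (u v : E n) :
    fderiv ℝ (fderiv ℝ (fun y => f y + g y)) z u v =
      fderiv ℝ (fderiv ℝ f) z u v + fderiv ℝ (fderiv ℝ g) z u v := by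
  rw [← fderiv_fderiv_apply_real (hf.add hg), ← fderiv_fderiv_apply_real hf,
    ← fderiv_fderiv_apply_real hg]
  have e : (fun y => fderiv ℝ (fun y => f y + g y) y v) =ᶠ[𝓝 z]
      (fun y => fderiv ℝ f y v + fderiv ℝ g y v) := by
    filter_upwards [ev_diff hf, ev_diff hg] with y h1 h2
    rw [fderiv_fun_add h1 h2]; rfl
  rw [e.fderiv_eq, fderiv_fun_add (diff_fderiv_apply_real hf v) (diff_fderiv_apply_real hg v)]
  rfl

theorem snd_const_mul {f : E n → ℝ} {z : E n} (c : ℝ) (hf : ContDiffAt ℝ 2 f z)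
    (u v : E n) :
    fderiv ℝ (fderiv ℝ (fun y => c * f y)) z u v = c * fderiv ℝ (fderiv ℝ f) z u v := by
  have hc : ContDiffAt ℝ 2 (fun y => c * f y) z := contDiffAt_const.mul hf
  rw [← fderiv_fderiv_apply_real hc, ← fderiv_fderiv_apply_real hf]
  have e : (fun y => fderiv ℝ (fun y => c * f y) y v) =ᶠ[𝓝 z]
      (fun y => c * fderiv ℝ f y v) := by
    filter_upwards [ev_diff hf] with y h1
    rw [fderiv_const_mul h1]; rfl
  rw [e.fderiv_eq, fderiv_const_mul (diff_fderiv_apply_real hf v)]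
  rfl

/-! ### chain rule -/

theorem fst_chain {h : ℝ → ℝ} {f : E n → ℝ} {z : E n} (hf : DifferentiableAt ℝ f z)
    (hh : DifferentiableAt ℝ h (f z)) (v : E n) :
    fderiv ℝ (fun y => h (f y)) z v = deriv h (f z) * fderiv ℝ f z v := by
  have h1 : HasFDerivAt (fun y => h (f y)) (deriv h (f z) • fderiv ℝ f z) z :=
    hh.hasDerivAt.comp_hasFDerivAt z hf.hasFDerivAt
  rw [h1.fderiv]
  rfl

theorem snd_chain {h : ℝ → ℝ} {f : E n → ℝ} {z : E n} (hf : ContDiffAt ℝ 2 f z)
    (hh : ContDiffAt ℝ 2 h (f z)) (u v : E n) :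
    fderiv ℝ (fderiv ℝ (fun y => h (f y))) z u v =
      deriv h (f z) * fderiv ℝ (fderiv ℝ f) z u v +
      deriv (deriv h) (f z) * (fderiv ℝ f z u * fderiv ℝ f z v) := by
  have hc : ContDiffAt ℝ 2 (fun y => h (f y)) z := hh.comp z hf
  have hfd : DifferentiableAt ℝ f z := hf.differentiableAt (by norm_num)
  rw [← fderiv_fderiv_apply_real hc, ← fderiv_fderiv_apply_real hf]
  have hev : ∀ᶠ x in 𝓝 (f z), DifferentiableAt ℝ h x := by
    have := hh.eventually (by simp)
    filter_upwards [this] with y hy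
    exact hy.differentiableAt (by norm_num)
  have e : (fun y => fderiv ℝ (fun y => h (f y)) y v) =ᶠ[𝓝 z]
      (fun y => deriv h (f y) * fderiv ℝ f y v) := by
    filter_upwards [ev_diff hf, hfd.continuousAt.eventually hev] with y h1 h2
    exact fst_chain h1 h2 v
  have hdd : DifferentiableAt ℝ (deriv h) (f z) := by
    have h1 : DifferentiableAt ℝ (fderiv ℝ h) (f z) :=
      (hh.fderiv_right (m := 1) (by norm_num)).differentiableAt (by norm_num)
    have h2 : deriv h = fun x => fderiv ℝ h x 1 := by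
      funext x; exact (fderiv_apply_one_eq_deriv (f := h)).symm
    rw [h2]
    exact h1.clm_apply (differentiableAt_const 1)
  have hd2 : DifferentiableAt ℝ (fun y => deriv h (f y)) z := hdd.comp z hfd
  rw [e.fderiv_eq, fderiv_fun_mul hd2 (diff_fderiv_apply_real hf v)]
  simp only [add_apply, smul_apply, smul_eq_mul]
  rw [fst_chain hfd hdd u]
  ring

theorem normsq_dl (f : E n → ℝ) (z w : E n) :
    ‖dl f z w‖ ^ 2 = ((fderiv ℝ f z w) ^ 2 + (fderiv ℝ f z (I • w)) ^ 2) / 4 := by
  unfold dl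
  rw [← Complex.normSq_eq_norm_sq, map_div₀]
  have h1 : Complex.normSq ((fderiv ℝ f z w : ℂ) - I * (fderiv ℝ f z (I • w) : ℂ)) =
      (fderiv ℝ f z w) ^ 2 + (fderiv ℝ f z (I • w)) ^ 2 := by
    rw [Complex.normSq_apply]
    simp
    ring
  rw [h1]
  congr 1
  norm_num [Complex.normSq_apply]

/-! ### the square norm -/

theorem nsq_sub_eq (p y : E n) : nsq (y - p) =
    ∑ j, (((y j).re - (p j).re) ^ 2 + ((y j).im - (p j).im) ^ 2) := by
  unfold nsq
  refine Finset.sum_congr rfl fun j _ => ?_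
  rw [← Complex.normSq_eq_norm_sq, Complex.normSq_apply]
  simp
  ring

/-- real part of a coordinate -/
noncomputable def RR (n : ℕ) (j : Fin n) : E n →L[ℝ] ℝ :=
  Complex.reCLM.comp (ContinuousLinearMap.proj (R := ℝ) (φ := fun _ : Fin n => ℂ) j)

/-- imaginary part of a coordinate -/
noncomputable def MM (n : ℕ) (j : Fin n) : E n →L[ℝ] ℝ :=
  Complex.imCLM.comp (ContinuousLinearMap.proj (R := ℝ) (φ := fun _ : Fin n => ℂ) j)

theorem RR_apply (j : Fin n) (y : E n) : RR n j y = (y j).re := rfl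
theorem MM_apply (j : Fin n) (y : E n) : MM n j y = (y j).im := rfl

theorem hasFDerivAt_nsq (p y : E n) : HasFDerivAt (fun y => nsq (y - p))
    (∑ j, ((2 * ((y j).re - (p j).re)) • RR n j + (2 * ((y j).im - (p j).im)) • MM n j)) y := by
  have e : (fun y => nsq (y - p)) = fun y : E n =>
      ∑ j, (((RR n j y) - (p j).re) ^ 2 + ((MM n j y) - (p j).im) ^ 2) := by
    funext y; rw [nsq_sub_eq]; rfl
  rw [e]
  refine HasFDerivAt.fun_sum fun j _ => ?_
  have h1 : HasFDerivAt (fun y : E n => RR n j y - (p j).re) (RR n j) y :=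
    (RR n j).hasFDerivAt.sub_const _
  have h2 : HasFDerivAt (fun y : E n => MM n j y - (p j).im) (MM n j) y :=
    (MM n j).hasFDerivAt.sub_const _
  have h3 := (h1.pow 2).add (h2.pow 2)
  refine h3.congr_fderiv ?_
  ext v
  simp [RR_apply, MM_apply]

theorem fst_nsq (p y v : E n) : fderiv ℝ (fun y => nsq (y - p)) y v =
    ∑ j, (2 * ((y j).re - (p j).re) * (v j).re + 2 * ((y j).im - (p j).im) * (v j).im) := by
  rw [(hasFDerivAt_nsq p y).fderiv]
  simp only [FunLike.coe_sum, Finset.sum_apply, add_apply, smul_apply, smul_eq_mul, RR_apply,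
    MM_apply]

theorem contDiff_nsq (p : E n) : ContDiff ℝ 2 (fun y : E n => nsq (y - p)) := by
  have e : (fun y => nsq (y - p)) = fun y : E n =>
      ∑ j, (((RR n j y) - (p j).re) ^ 2 + ((MM n j y) - (p j).im) ^ 2) := by
    funext y; rw [nsq_sub_eq]; rfl
  rw [e]
  refine ContDiff.sum fun j _ => ?_
  exact (((RR n j).contDiff.sub contDiff_const).pow 2).add
    (((MM n j).contDiff.sub contDiff_const).pow 2)

theorem snd_nsq (p z u v : E n) : fderiv ℝ (fderiv ℝ (fun y => nsq (y - p))) z u v =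
    ∑ j, (2 * (u j).re * (v j).re + 2 * (u j).im * (v j).im) := by
  rw [← fderiv_fderiv_apply_real (contDiff_nsq p).contDiffAt]
  have e : (fun y => fderiv ℝ (fun y => nsq (y - p)) y v) = fun y : E n =>
      ∑ j, (2 * (v j).re * (RR n j y - (p j).re) + 2 * (v j).im * (MM n j y - (p j).im)) := by
    funext y; rw [fst_nsq]
    refine Finset.sum_congr rfl fun j _ => ?_
    rw [RR_apply, MM_apply]; ring
  rw [e]
  have h : HasFDerivAt (fun y : E n =>
      ∑ j, (2 * (v j).re * (RR n j y - (p j).re) + 2 * (v j).im * (MM n j y - (p j).im)))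
      (∑ j, ((2 * (v j).re) • RR n j + (2 * (v j).im) • MM n j)) z := by
    refine HasFDerivAt.fun_sum fun j _ => ?_
    exact (((RR n j).hasFDerivAt.sub_const _).const_mul _).add
      (((MM n j).hasFDerivAt.sub_const _).const_mul _)
  rw [h.fderiv]
  simp only [FunLike.coe_sum, Finset.sum_apply, add_apply, smul_apply, smul_eq_mul, RR_apply,
    MM_apply]
  refine Finset.sum_congr rfl fun j _ => ?_
  ring

theorem Lv_nsq (p z w : E n) : Lv (fun y => nsq (y - p)) z w = nsq w := by
  rw [Lv_eq, snd_nsq, snd_nsq, ← Finset.sum_add_distrib, Finset.sum_div]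
  unfold nsq
  refine Finset.sum_congr rfl fun j _ => ?_
  rw [← Complex.normSq_eq_norm_sq, Complex.normSq_apply]
  simp
  ring

theorem dl_nsq (p z w : E n) : dl (fun y => nsq (y - p)) z w =
    ∑ j, w j * (starRingEnd ℂ) ((z - p) j) := by
  unfold dl
  rw [fst_nsq, fst_nsq]
  push_cast
  rw [Finset.mul_sum, ← Finset.sum_sub_distrib, Finset.sum_div]
  refine Finset.sum_congr rfl fun j _ => ?_
  apply Complex.ext
  · simp
    ring
  · simp
    ring

/-! ### linear algebra of `dl` -/

theorem dl_sum {f : E n → ℝ} {z : E n} (hf : DifferentiableAt ℝ f z) (w : E n) :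
    dl f z w = ∑ j, dz j (cx f) z * w j := by
  have h1 : ∀ v : E n, fderiv ℝ f z v = ∑ j, ((v j).re * fderiv ℝ f z (Pi.single j 1) +
      (v j).im * fderiv ℝ f z (Pi.single j I)) := by
    intro v
    conv_lhs => rw [sum_single v, map_sum]
    refine Finset.sum_congr rfl fun j _ => ?_
    rw [single_eq j (v j)]
    simp only [map_add, map_smul, smul_eq_mul]
  unfold dl
  rw [h1 w, h1 (I • w)]
  push_cast
  rw [Finset.mul_sum, ← Finset.sum_sub_distrib, Finset.sum_div]
  refine Finset.sum_congr rfl fun j _ => ?_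
  unfold dz
  rw [fderiv_cx hf, fderiv_cx hf]
  apply Complex.ext
  · simp
    ring
  · simp
    ring

/-- LC -/
theorem lc : LcStmt := by
  intro n
  refine ⟨?_, ?_, ?_, ?_, ?_, ?_⟩
  · intro f g z w hf hg
    refine ⟨?_, ?_⟩
    · rw [Lv_eq, Lv_eq, Lv_eq, snd_add hf hg, snd_add hf hg]; ring
    · unfold dl
      rw [fderiv_fun_add (hf.differentiableAt (by norm_num)) (hg.differentiableAt (by norm_num))]
      simp only [add_apply]
      push_cast
      ring
  · intro c f z w hf
    refine ⟨?_, ?_⟩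
    · rw [Lv_eq, Lv_eq, snd_const_mul c hf, snd_const_mul c hf]; ring
    · unfold dl
      rw [fderiv_const_mul (hf.differentiableAt (by norm_num))]
      simp only [smul_apply, smul_eq_mul]
      push_cast
      ring
  · intro h f z w hf hh
    refine ⟨?_, ?_⟩
    · rw [Lv_eq, Lv_eq, snd_chain hf hh, snd_chain hf hh, normsq_dl]; ring
    · unfold dl
      rw [fst_chain (hf.differentiableAt (by norm_num)) (hh.differentiableAt (by norm_num)),
        fst_chain (hf.differentiableAt (by norm_num)) (hh.differentiableAt (by norm_num))]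
      push_cast
      ring
  · intro p z w
    exact ⟨Lv_nsq p z w, dl_nsq p z w⟩
  · intro f z w hf
    exact dl_sum hf w
  · intro f z w hf
    rw [dl_sum hf w]
    have h1 : ‖∑ j, dz j (cx f) z * w j‖ ≤ ∑ j, ‖dz j (cx f) z‖ * ‖w j‖ := by
      refine (norm_sum_le _ _).trans (le_of_eq ?_)
      exact Finset.sum_congr rfl fun j _ => norm_mul _ _
    have h2 := Finset.sum_mul_sq_le_sq_mul_sq Finset.univ (fun j => ‖dz j (cx f) z‖)
      (fun j => ‖w j‖)
    have h3 : ‖∑ j, dz j (cx f) z * w j‖ ^ 2 ≤ (∑ j, ‖dz j (cx f) z‖ * ‖w j‖) ^ 2 :=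
      pow_le_pow_left₀ (norm_nonneg _) h1 2
    exact h3.trans h2

end Pool.Agent.DK.H18
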